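import Pool.Agent.Helper60.HP.Pos

/-!
# Positive curvature and almost nonnegative curvature operators: the Euler characteristic

Let `n = 2 m`. We prove for every `m` a lower bound for the Gauss–Bonnet–Chern integrand by the
`m`-th power of the (real) sectional curvatures: if all sectional curvatures are at least `κ` and the
curvature operator is nonnegative, or at least bounded below by `-ε_m κ` with a universal constant
`ε_m > 0`, then `gbc ≥ c_m κ ^ m`; no upper curvature bound and no volume bound is assumed. So a
closed `2 m`-manifold with such curvature has `χ > 0`, and `vol ≤ C_m χ κ ^ (-m)`. The condition on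
the operator cannot be dropped altogether: the library has a metric of positive sectional curvature
on `S³ × S³`.

For nonnegative curvature operators we determine when the integrand vanishes: if and only if all
two-forms in the image of the curvature operator are degenerate. In particular the manifold has
flat planes at (almost) every point if `χ = 0`.

Notation: `Fin m × Bool` numbers an orthonormal basis; `AlgCurv R`: algebraic curvature tensor,
`R x y x y` is the sectional curvature; `gbc e R`: the Gauss–Bonnet–Chern integrand, normalised to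
have integral `χ`; `CurvField m M`: a field of algebraic curvature tensors in dimension `2 m` on
`M`, `K.gb` its integrand; `SecGe R b`: all sectional curvatures are at least `b`; `OpNonneg R`,
`OpGe R b`: the curvature operator is nonnegative, has eigenvalues at least `b`; `curvForm R x y`:
the image of the bivector `∑ t, x t ∧ y t`; `pfaff e`: the Pfaffian.

The proof is the one of the counterpart for negative curvature, `MP_394d50_gt.NonpositiveOperator`
(`Pool/Agent/H17/NO/`, by helper17), applied to `-R`.
-/

set_option autoImplicit false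

namespace Pool.Agent.Results.MP_4a593f_gt.AlmostNonnegativeOperator

open MeasureTheory Pool.Agent.W666.GB Pool.Agent.Helper60.HP
open Pool.Agent.H17.NO (curvForm pfaff Nondeg HasFlatPlane bnd epsm)

/-- **Positive curvature and almost nonnegative curvature operator.** -/
theorem result :
    -- (1) the pointwise inequality
    (∀ (m : ℕ) (V : Type) [NormedAddCommGroup V] [InnerProductSpace ℝ V]
      (e : OrthonormalBasis (Fin m × Bool) ℝ V) (R : V → V → V → V → ℝ) (κ : ℝ), 1 ≤ m →
      AlgCurv R → 0 ≤ κ → SecGe R κ →
        (OpNonneg R → κ ^ m ≤ bnd m * gbc e R) ∧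
        (OpGe R (-(epsm m * κ)) → κ ^ m ≤ 2 * bnd m * gbc e R)) ∧
    -- (2) nonnegative curvature operator: the zeros of the integrand
    (∀ (m : ℕ) (V : Type) [NormedAddCommGroup V] [InnerProductSpace ℝ V]
      (e : OrthonormalBasis (Fin m × Bool) ℝ V) (R : V → V → V → V → ℝ), AlgCurv R →
      OpNonneg R →
        (gbc e R = 0 ↔ ∀ (k : ℕ) (x y : Fin k → V), ¬ Nondeg (curvForm R x y)) ∧
        (gbc e R = 0 → HasFlatPlane R) ∧
        ∀ (k : ℕ) (x y : Fin k → V), pfaff e (curvForm R x y) ^ 2 ≤
          (2 * Real.pi) ^ m / m.factorial * (∑ s, ∑ t, R (x s) (y s) (x t) (y t)) ^ m *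
            gbc e R) ∧
    -- (3) the integrated inequality
    (∀ (m : ℕ) (M : Type) [MeasurableSpace M] (μ : Measure M) (K : CurvField m M) (κ : M → ℝ),
      1 ≤ m → (∀ p, 0 ≤ κ p ∧ SecGe (K.R p) (κ p) ∧ OpGe (K.R p) (-(epsm m * κ p))) →
        0 ≤ ∫ p, K.gb p ∂μ ∧
        (Integrable K.gb μ → ∫ p, κ p ^ m ∂μ ≤ 2 * bnd m * ∫ p, K.gb p ∂μ) ∧
        (Integrable K.gb μ → μ {p | 0 < κ p} ≠ 0 → 0 < ∫ p, K.gb p ∂μ)) ∧
    -- (4) nonnegative curvature operator: the vanishing of the integral
    (∀ (m : ℕ) (M : Type) [MeasurableSpace M] (μ : Measure M) (K : CurvField m M),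
      (∀ p, OpNonneg (K.R p)) → Integrable K.gb μ →
        (∫ p, K.gb p ∂μ = 0 ↔
          ∀ᵐ p ∂μ, ∀ (k : ℕ) (x y : Fin k → K.V p), ¬ Nondeg (curvForm (K.R p) x y)) ∧
        (∫ p, K.gb p ∂μ = 0 → ∀ᵐ p ∂μ, HasFlatPlane (K.R p))) :=
  ⟨fun _ _ _ _ e _ _ hm hR hκ hs => point e hm hR hκ hs,
    fun _ _ _ _ e _ hR hO =>
      ⟨crit e hR hO, flat e hR hO, fun _ x y => pfaff_bound e hR hO x y⟩,
    fun _ _ _ μ K κ hm h => field_eps hm μ K κ h,
    fun _ _ _ μ K h hi => field_crit μ K h hi⟩

end Pool.Agent.Results.MP_4a593f_gt.AlmostNonnegativeOperator
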