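import Pool.Agent.Helper57.RH.Pos

/-!
# Positive curvature and pinched Ricci curvatures in all even dimensions: the Euler characteristic
is positive

Let `n = 2 m ≥ 6`. `IRicLe R k ρ`: the `k`-th intermediate Ricci curvature is at most `ρ`, that
is, the sum of the sectional curvatures of the planes `x ∧ y 0, …, x ∧ y (k - 1)` is at most `ρ`
for all orthonormal `x, y 0, …, y (k - 1)`; for `k = n - 1` this is the Ricci curvature.
`PosPinched m c R`: all sectional curvatures are at least `c ≥ 0`, and the intermediate Ricci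
curvatures of the orders `5, 7, …, n - 1` are at most `ρ 3, …, ρ m` with
`ρ 3 + … + ρ m ≤ (m - 1) (m + 4) c` (for constant curvature `c` the sum is `(m ^ 2 - 4) c`, so the
room is `3 m c`). `PosPinchedSq m c R`: `R` is such a tensor plus a sum of squares of decomposable
two-forms, so that the curvature is not bounded above.

(1) For `PosPinched` tensors the Gauss-Bonnet-Chern integrand is at least
`roundGB m 1 * c ^ (m - 1) * (scal / (2 (n - 1)) - (m - 1) c)`, which is at least the value
`roundGB m c` for constant curvature `c`; equality with `roundGB m c` holds only for constant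
curvature. (2) For `PosPinchedSq` tensors it is at least `roundGB m c`.
(3) `K ≥ c` and `Ric ≤ (n ^ 2 - 2 n + 4) / (n - 4) * c` imply `PosPinched m c`; here a single
sectional curvature may be as large as `(4 n - 4) / (n - 4) * c`, which is more than `4 c`.
(4), (5) The integrated forms, with `c` a function on the manifold.

For a closed Riemannian manifold the integral is the Euler characteristic, so `χ(M) > 0` if `c > 0`
somewhere. The counterpart for negative curvature is `MP_394d50_gt.RicciPinchedAllDimensions`; see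
there for the proof.
-/

set_option autoImplicit false

namespace Pool.Agent.Results.MP_4a593f_gt.RicciPinchedAllDimensions

open Pool.Agent.W666.GB Pool.Agent.W669.HD Pool.Agent.Helper57.RH MeasureTheory

/-- **Positive Euler characteristic from positive curvature with pinched intermediate Ricci
curvatures.** -/
theorem result :
    -- (1) the pointwise bounds and the case of equality
    (∀ (m : ℕ) (V : Type) [NormedAddCommGroup V] [InnerProductSpace ℝ V]
      (e : OrthonormalBasis (Fin m × Bool) ℝ V) (R : V → V → V → V → ℝ) (c : ℝ), 3 ≤ m →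
      AlgCurv R → PosPinched m c R →
        roundGB m 1 * (c ^ (m - 1) * (scal e R / (2 * (2 * m - 1)) - (m - 1) * c)) ≤ gbc e R ∧
        roundGB m c ≤
          roundGB m 1 * (c ^ (m - 1) * (scal e R / (2 * (2 * m - 1)) - (m - 1) * c)) ∧
        (gbc e R = roundGB m c ↔ ∀ x y z w, R x y z w = c * unitT x y z w)) ∧
    -- (2) plus squares of decomposable two-forms
    (∀ (m : ℕ) (V : Type) [NormedAddCommGroup V] [InnerProductSpace ℝ V]
      (e : OrthonormalBasis (Fin m × Bool) ℝ V) (R : V → V → V → V → ℝ) (c : ℝ), 3 ≤ m →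
      PosPinchedSq m c R → roundGB m c ≤ gbc e R) ∧
    -- (3) Ricci pinching
    (∀ (m : ℕ) (V : Type) [NormedAddCommGroup V] [InnerProductSpace ℝ V]
      (_ : OrthonormalBasis (Fin m × Bool) ℝ V) (R : V → V → V → V → ℝ) (c : ℝ), 3 ≤ m → 0 ≤ c →
      (∀ x y : V, ‖x‖ = 1 → ‖y‖ = 1 → inner ℝ x y = (0 : ℝ) → c ≤ R x y x y) →
      IRicLe R (2 * m - 1) (((2 * m : ℝ) ^ 2 - 2 * (2 * m) + 4) / (2 * m - 4) * c) →
        PosPinched m c R) ∧
    -- (4) fields of pinched tensors: zero integral only for flat, minimal only for constant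
    (∀ (m : ℕ) (M : Type) [MeasurableSpace M] (μ : Measure M) (K : CurvField m M) (c : M → ℝ),
      3 ≤ m → (∀ p, PosPinched m (c p) (K.R p)) → Integrable K.gb μ →
        (∫ p, K.gb p ∂μ = 0 ↔ ∀ᵐ p ∂μ, ∀ x y z w : K.V p, K.R p x y z w = 0) ∧
        (IsFiniteMeasure μ → ∀ c₀ : ℝ, 0 ≤ c₀ → (∀ p, c₀ ≤ c p) →
          (∫ p, K.gb p ∂μ = roundGB m c₀ * μ.real Set.univ ↔
            ∀ᵐ p ∂μ, ∀ x y z w : K.V p, K.R p x y z w = c₀ * unitT x y z w))) ∧
    -- (5) fields of pinched tensors plus squares (`PosPinched` implies `PosPinchedSq`)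
    (∀ (m : ℕ) (M : Type) [MeasurableSpace M] (μ : Measure M) (K : CurvField m M) (c : M → ℝ),
      3 ≤ m → (∀ p, PosPinched m (c p) (K.R p) ∨ PosPinchedSq m (c p) (K.R p)) →
        0 ≤ ∫ p, K.gb p ∂μ ∧
        (Integrable K.gb μ → μ {p | 0 < c p} ≠ 0 → 0 < ∫ p, K.gb p ∂μ) ∧
        (IsFiniteMeasure μ → Integrable K.gb μ → ∀ c₀ : ℝ, 0 ≤ c₀ → (∀ p, c₀ ≤ c p) →
          roundGB m c₀ * μ.real Set.univ ≤ ∫ p, K.gb p ∂μ)) :=
  ⟨fun _ _ _ _ e _ _ hm hR h => pos_point e hm hR h,
    fun _ _ _ _ e _ _ hm h => pos_sq e hm h,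
    fun _ _ _ _ e _ _ hm hc hs hr => pos_of_ric e hm hc hs hr,
    fun _ _ _ μ K c hm h hint => pos_field_rigid μ K c hm h hint,
    fun _ _ _ μ K c hm h => pos_field μ K c hm h⟩

end Pool.Agent.Results.MP_4a593f_gt.RicciPinchedAllDimensions
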